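import Pool.Agent.helper20.LE.DL

/-!
# LE project, modules W1 and W2: weights on the lines of a block
-/

set_option autoImplicit false

open Finset Classical

namespace Pool.Agent.helper66.LE

section D

variable {V : Type} [Fintype V] [DecidableEq V] {T Q : Matrix V V ℝ} {ρ : V → V → ℝ} {B δ W : ℝ}

/-- the sum of the block over `u` and `s` -/
theorem W1_blk (h : Hyp T Q ρ B δ W) (v a t : V) : ∑ u, ∑ s, DR_blk T v a u t s =
      (T ^ 2) v t * T t a * (T ^ 2) a t + T v t * (T ^ 2) t a * (T ^ 2) a t +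
        T v t * T t a * (T ^ 3) a t + T v t * T t a * (T ^ 3) a t := by
  have e1 : ∑ u, ∑ s, T v s * T s t * T t a * T a u * T t u =
      (T ^ 2) v t * T t a * (T ^ 2) a t := by
    rw [sum_comm, DR_sq T v t, DR_sq T a t, Finset.sum_mul, Finset.sum_mul]
    refine Finset.sum_congr rfl fun s _ => ?_
    rw [Finset.mul_sum]
    refine Finset.sum_congr rfl fun u _ => ?_
    rw [h.Ts t u]
    ring
  have e2 : ∑ u, ∑ s, T v t * (T t s * T s a) * T a u * T t u =
      T v t * (T ^ 2) t a * (T ^ 2) a t := by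
    rw [sum_comm, DR_sq T t a, DR_sq T a t, mul_assoc, Finset.sum_mul_sum, Finset.mul_sum]
    refine Finset.sum_congr rfl fun s _ => ?_
    rw [Finset.mul_sum]
    refine Finset.sum_congr rfl fun u _ => ?_
    rw [h.Ts t u]
    ring
  have e3 : ∑ u, ∑ s, T v t * T t a * (T a s * T s u) * T t u =
      T v t * T t a * (T ^ 3) a t := by
    rw [DR_cube' T a t, Finset.mul_sum]
    refine Finset.sum_congr rfl fun u _ => ?_
    rw [DR_sq T a u, Finset.sum_mul, Finset.mul_sum]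
    refine Finset.sum_congr rfl fun s _ => ?_
    rw [h.Ts t u]
    ring
  have e4 : ∑ u, ∑ s, T v t * T t a * T a u * (T t s * T s u) =
      T v t * T t a * (T ^ 3) a t := by
    rw [DR_cube T a t, Finset.mul_sum]
    refine Finset.sum_congr rfl fun u _ => ?_
    rw [DP_symm h 2 u t, DR_sq T t u, Finset.mul_sum, Finset.mul_sum]
    refine Finset.sum_congr rfl fun s _ => ?_
    ring
  unfold DR_blk
  simp only [Finset.sum_add_distrib]
  rw [e1, e2, e3, e4]

theorem W1_mul (h : Hyp T Q ρ B δ W) {i j : ℕ} (hi : i ≤ 8) (hj : j ≤ 8) (x y : V) :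
    (T ^ i) x y * (T ^ j) x y ≤ ((T ^ 8) x y) ^ 2 := by
  rw [pow_two]
  exact mul_le_mul (DP_mono h hi x y) (DP_mono h hj x y) (DP_nonneg h j x y) (DP_nonneg h 8 x y)

theorem W1_inner (h : Hyp T Q ρ B δ W) (v t : V) :
    ∑ a, ∑ u, ∑ s, (T ^ 4) v a * DR_blk T v a u t s ≤ 4 * B * ((T ^ 8) v t) ^ 2 := by
  have hB := DR_B0 h
  have h2 : ∀ x y, 0 ≤ (T ^ 2) x y := fun x y => DP_nonneg h 2 x y
  have h4 : ∀ x y, 0 ≤ (T ^ 4) x y := fun x y => DP_nonneg h 4 x y
  have e : ∀ a, ∑ u, ∑ s, (T ^ 4) v a * DR_blk T v a u t s ≤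
      B * ((T ^ 2) v t * ((T ^ 4) v a * T a t) + T v t * ((T ^ 4) v a * (T ^ 2) a t) +
        2 * (T v t * ((T ^ 4) v a * T a t))) := by
    intro a
    have : ∑ u, ∑ s, (T ^ 4) v a * DR_blk T v a u t s =
        (T ^ 4) v a * ∑ u, ∑ s, DR_blk T v a u t s := by
      simp only [mul_sum]
    rw [this, W1_blk h, h.Ts t a, DP_symm h 2 t a]
    have a2 : (T ^ 2) a t ≤ B := DR_pow_le_B h (by norm_num) a t
    have a3 : (T ^ 3) a t ≤ B := DR_pow_le_B h (by norm_num) a t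
    have n1 : 0 ≤ (T ^ 4) v a * ((T ^ 2) v t * T a t) := mul_nonneg (h4 v a) (mul_nonneg (h2 v t) (h.T0 a t))
    have n2 : 0 ≤ (T ^ 4) v a * (T v t * (T ^ 2) a t) := mul_nonneg (h4 v a) (mul_nonneg (h.T0 v t) (h2 a t))
    have n3 : 0 ≤ (T ^ 4) v a * (T v t * T a t) := mul_nonneg (h4 v a) (mul_nonneg (h.T0 v t) (h.T0 a t))
    have b1 := mul_le_mul_of_nonneg_left a2 n1
    have b2 := mul_le_mul_of_nonneg_left a2 n2
    have b3 := mul_le_mul_of_nonneg_left a3 n3
    linarith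
  refine (sum_le_sum fun a _ => e a).trans ?_
  have s1 : ∑ a, (T ^ 4) v a * T a t = (T ^ 5) v t := by
    rw [show (5 : ℕ) = 4 + 1 from rfl, pow_succ T 4, Matrix.mul_apply]
  have s2 : ∑ a, (T ^ 4) v a * (T ^ 2) a t = (T ^ 6) v t := by
    rw [show (6 : ℕ) = 4 + 2 from rfl, pow_add T 4 2, Matrix.mul_apply]
  rw [← mul_sum, sum_add_distrib, sum_add_distrib, ← mul_sum, ← mul_sum, ← mul_sum, ← mul_sum, s1, s2]
  have c1 := W1_mul h (show 2 ≤ 8 by norm_num) (show 5 ≤ 8 by norm_num) v t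
  have c2 := W1_mul h (show 1 ≤ 8 by norm_num) (show 6 ≤ 8 by norm_num) v t
  have c3 := W1_mul h (show 1 ≤ 8 by norm_num) (show 5 ≤ 8 by norm_num) v t
  rw [pow_one] at c2 c3
  calc B * ((T ^ 2) v t * (T ^ 5) v t + T v t * (T ^ 6) v t + 2 * (T v t * (T ^ 5) v t))
      ≤ B * (4 * ((T ^ 8) v t) ^ 2) := mul_le_mul_of_nonneg_left (by linarith) hB
    _ = _ := by ring

/-- DW1: weight on the line `v - t` -/
theorem Hyp.weight_vt (h : Hyp T Q ρ B δ W) {M : V → V → ℝ} {c β : ℝ} (hM : LF T M c β)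
    (hc : 0 ≤ c) (hβ : 0 ≤ β) (G : V → V → ℝ) (c' : ℝ) (hc' : 0 ≤ c') (hG0 : ∀ s u, 0 ≤ G s u)
    (hG : ∀ s u, G s u ≤ c' * δ) :
    ∑ v, ∑ a, ∑ u, ∑ t, ∑ s, M v a * ρ v t ^ 2 *
      (T v s * T s t * T t a * T a u * T t u + T v t * (T t s * T s a) * T a u * T t u +
        T v t * T t a * (T a s * T s u) * T t u + T v t * T t a * T a u * (T t s * T s u)) *
      G s u ≤ Fintype.card V * (4 * c' * δ * B * c * W) := by
  have hB := DR_B0 h
  have hδ := h.δ0
  have h1 : ∀ v a u t s, M v a * ρ v t ^ 2 * DR_blk T v a u t s * G s u ≤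
      (c * (c' * δ)) * (ρ v t ^ 2 * ((T ^ 4) v a * DR_blk T v a u t s)) := by
    intro v a u t s
    have hb := DR_blk_nonneg h v a u t s
    have hM1 := hM.Mc v a
    have hM0 := hM.M0 v a
    have hT4 := DP_nonneg h 4 v a
    calc M v a * ρ v t ^ 2 * DR_blk T v a u t s * G s u
        ≤ M v a * ρ v t ^ 2 * DR_blk T v a u t s * (c' * δ) :=
          mul_le_mul_of_nonneg_left (hG s u) (by positivity)
      _ = M v a * (ρ v t ^ 2 * DR_blk T v a u t s * (c' * δ)) := by ring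
      _ ≤ (c * (T ^ 4) v a) * (ρ v t ^ 2 * DR_blk T v a u t s * (c' * δ)) :=
          mul_le_mul_of_nonneg_right hM1 (by positivity)
      _ = _ := by ring
  calc ∑ v, ∑ a, ∑ u, ∑ t, ∑ s, M v a * ρ v t ^ 2 * DR_blk T v a u t s * G s u
      ≤ ∑ v, ∑ a, ∑ u, ∑ t, ∑ s,
        (c * (c' * δ)) * (ρ v t ^ 2 * ((T ^ 4) v a * DR_blk T v a u t s)) :=
        sum_le_sum fun v _ => sum_le_sum fun a _ => sum_le_sum fun u _ => sum_le_sum fun t _ =>
          sum_le_sum fun s _ => h1 v a u t s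
    _ = (c * (c' * δ)) * ∑ v, ∑ t, ρ v t ^ 2 * ∑ a, ∑ u, ∑ s,
        (T ^ 4) v a * DR_blk T v a u t s := by
        simp only [mul_sum]
        refine sum_congr rfl fun v _ => ?_
        rw [sum_comm]
        calc ∑ u, ∑ a, ∑ t, ∑ s, (c * (c' * δ)) * (ρ v t ^ 2 * ((T ^ 4) v a * DR_blk T v a u t s))
            = ∑ a, ∑ u, ∑ t, ∑ s,
              (c * (c' * δ)) * (ρ v t ^ 2 * ((T ^ 4) v a * DR_blk T v a u t s)) := sum_comm
          _ = ∑ a, ∑ t, ∑ u, ∑ s,
              (c * (c' * δ)) * (ρ v t ^ 2 * ((T ^ 4) v a * DR_blk T v a u t s)) :=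
              sum_congr rfl fun a _ => sum_comm
          _ = ∑ t, ∑ a, ∑ u, ∑ s,
              (c * (c' * δ)) * (ρ v t ^ 2 * ((T ^ 4) v a * DR_blk T v a u t s)) := sum_comm
    _ ≤ (c * (c' * δ)) * ∑ v, ∑ t, 4 * B * (ρ v t ^ 2 * ((T ^ 8) v t) ^ 2) := by
        refine mul_le_mul_of_nonneg_left ?_ (by positivity)
        refine sum_le_sum fun v _ => sum_le_sum fun t _ => ?_
        calc ρ v t ^ 2 * ∑ a, ∑ u, ∑ s, (T ^ 4) v a * DR_blk T v a u t s
            ≤ ρ v t ^ 2 * (4 * B * ((T ^ 8) v t) ^ 2) :=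
              mul_le_mul_of_nonneg_left (W1_inner h v t) (sq_nonneg _)
          _ = _ := by ring
    _ = (c * (c' * δ)) * (4 * B * ∑ v, ∑ t, ρ v t ^ 2 * ((T ^ 8) v t) ^ 2) := by
        simp only [mul_sum]
    _ ≤ (c * (c' * δ)) * (4 * B * (Fintype.card V * W)) := by
        refine mul_le_mul_of_nonneg_left ?_ (by positivity)
        exact mul_le_mul_of_nonneg_left h.hW (by positivity)
    _ = Fintype.card V * (4 * c' * δ * B * c * W) := by ring

/-- the rest of the block, summed over `a` and `s` -/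
theorem W2_inner (h : Hyp T Q ρ B δ W) (u t : V) :
    ∑ a, ∑ s, DL_rest T a u t s * (T ^ 6) s u ≤ 4 * B * ((T ^ 8) t u) ^ 2 := by
  have hB := DR_B0 h
  have h2 : ∀ x y, 0 ≤ (T ^ 2) x y := fun x y => DP_nonneg h 2 x y
  have e6 : ∀ s, (T ^ 6) s u ≤ B := fun s => DR_pow_le_B h (by norm_num) s u
  have e1 : ∑ a, ∑ s, T s t * T t a * T a u * T t u * (T ^ 6) s u ≤
      B * ((T ^ 2) t u * T t u) := by
    have : ∑ a, ∑ s, T s t * T t a * T a u * T t u * (T ^ 6) s u =
        (T ^ 7) t u * ((T ^ 2) t u * T t u) := by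
      rw [DR_sq T t u, show (7 : ℕ) = 1 + 6 from rfl, pow_add T 1 6, pow_one, Matrix.mul_apply,
        Finset.sum_mul (f := fun i => T t i * T i u), Finset.mul_sum]
      refine Finset.sum_congr rfl fun a _ => ?_
      rw [Finset.sum_mul]
      refine Finset.sum_congr rfl fun s _ => ?_
      rw [h.Ts s t]
      ring
    rw [this]
    exact mul_le_mul_of_nonneg_right (DR_pow_le_B h (by norm_num) t u)
      (mul_nonneg (h2 t u) (h.T0 t u))
  have e2 : ∑ a, ∑ s, T t s * T s a * T a u * T t u * (T ^ 6) s u ≤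
      B * ((T ^ 3) t u * T t u) := by
    calc ∑ a, ∑ s, T t s * T s a * T a u * T t u * (T ^ 6) s u
        ≤ ∑ a, ∑ s, T t s * T s a * T a u * T t u * B :=
          sum_le_sum fun a _ => sum_le_sum fun s _ => mul_le_mul_of_nonneg_left (e6 s)
            (mul_nonneg (mul_nonneg (mul_nonneg (h.T0 _ _) (h.T0 _ _)) (h.T0 _ _)) (h.T0 _ _))
      _ = B * ((T ^ 3) t u * T t u) := by
          rw [DR_cube' T t u, Finset.sum_mul, Finset.mul_sum]
          refine Finset.sum_congr rfl fun a _ => ?_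
          rw [DR_sq T t a, Finset.sum_mul, Finset.sum_mul, Finset.mul_sum]
          refine Finset.sum_congr rfl fun s _ => ?_
          ring
  have e3 : ∑ a, ∑ s, T t a * (T a s * T s u) * T t u * (T ^ 6) s u ≤
      B * ((T ^ 3) t u * T t u) := by
    calc ∑ a, ∑ s, T t a * (T a s * T s u) * T t u * (T ^ 6) s u
        ≤ ∑ a, ∑ s, T t a * (T a s * T s u) * T t u * B :=
          sum_le_sum fun a _ => sum_le_sum fun s _ => mul_le_mul_of_nonneg_left (e6 s)
            (mul_nonneg (mul_nonneg (h.T0 _ _) (mul_nonneg (h.T0 _ _) (h.T0 _ _))) (h.T0 _ _))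
      _ = B * ((T ^ 3) t u * T t u) := by
          rw [DR_cube T t u, Finset.sum_mul, Finset.mul_sum]
          refine Finset.sum_congr rfl fun a _ => ?_
          rw [DR_sq T a u, Finset.mul_sum, Finset.sum_mul, Finset.mul_sum]
          refine Finset.sum_congr rfl fun s _ => ?_
          ring
  have e4 : ∑ a, ∑ s, T t a * T a u * (T t s * T s u) * (T ^ 6) s u ≤
      B * ((T ^ 2) t u * (T ^ 2) t u) := by
    calc ∑ a, ∑ s, T t a * T a u * (T t s * T s u) * (T ^ 6) s u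
        ≤ ∑ a, ∑ s, T t a * T a u * (T t s * T s u) * B :=
          sum_le_sum fun a _ => sum_le_sum fun s _ => mul_le_mul_of_nonneg_left (e6 s)
            (mul_nonneg (mul_nonneg (h.T0 _ _) (h.T0 _ _)) (mul_nonneg (h.T0 _ _) (h.T0 _ _)))
      _ = B * ((T ^ 2) t u * (T ^ 2) t u) := by
          rw [DR_sq T t u, Finset.sum_mul_sum, Finset.mul_sum]
          refine Finset.sum_congr rfl fun a _ => ?_
          rw [Finset.mul_sum]
          refine Finset.sum_congr rfl fun s _ => ?_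
          ring
  have e : ∑ a, ∑ s, DL_rest T a u t s * (T ^ 6) s u ≤
      B * ((T ^ 2) t u * T t u) + B * ((T ^ 3) t u * T t u) + B * ((T ^ 3) t u * T t u) +
        B * ((T ^ 2) t u * (T ^ 2) t u) := by
    refine le_trans (le_of_eq ?_) (add_le_add (add_le_add (add_le_add e1 e2) e3) e4)
    simp only [← Finset.sum_add_distrib]
    refine Finset.sum_congr rfl fun t _ => Finset.sum_congr rfl fun a _ => ?_
    unfold DL_rest
    ring
  refine e.trans ?_
  have c1 := W1_mul h (show 2 ≤ 8 by norm_num) (show 1 ≤ 8 by norm_num) t u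
  have c2 := W1_mul h (show 3 ≤ 8 by norm_num) (show 1 ≤ 8 by norm_num) t u
  have c3 := W1_mul h (show 2 ≤ 8 by norm_num) (show 2 ≤ 8 by norm_num) t u
  rw [pow_one] at c1 c2
  have d1 := mul_le_mul_of_nonneg_left c1 hB
  have d2 := mul_le_mul_of_nonneg_left c2 hB
  have d3 := mul_le_mul_of_nonneg_left c3 hB
  linarith

/-- DW2: weight on the line `t - u` -/
theorem Hyp.weight_tu (h : Hyp T Q ρ B δ W) {M : V → V → ℝ} {c β : ℝ} (hM : LF T M c β)
    (hc : 0 ≤ c) (hβ : 0 ≤ β) (G : V → V → ℝ) (c' : ℝ) (hc' : 0 ≤ c') (hG0 : ∀ s u, 0 ≤ G s u)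
    (hG : ∀ s u, G s u ≤ c' * (T ^ 6) s u) :
    ∑ v, ∑ a, ∑ u, ∑ t, ∑ s, M v a * ρ t u ^ 2 *
      (T v s * T s t * T t a * T a u * T t u + T v t * (T t s * T s a) * T a u * T t u +
        T v t * T t a * (T a s * T s u) * T t u + T v t * T t a * T a u * (T t s * T s u)) *
      G s u ≤ Fintype.card V * (4 * β * c' * B * W) := by
  have hB := DR_B0 h
  have hv : ∀ u t a s, ∑ v, M v a * ρ t u ^ 2 * DR_blk T v a u t s * G s u ≤
      (β * c') * (ρ t u ^ 2 * (DL_rest T a u t s * (T ^ 6) s u)) := by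
    intro u t a s
    have hr := DL_rest_nonneg h a u t s
    calc ∑ v, M v a * ρ t u ^ 2 * DR_blk T v a u t s * G s u
        = (∑ v, M v a * DR_blk T v a u t s) * (ρ t u ^ 2 * G s u) := by
          rw [sum_mul]
          exact sum_congr rfl fun v _ => by ring
      _ ≤ (β * DL_rest T a u t s) * (ρ t u ^ 2 * G s u) :=
          mul_le_mul_of_nonneg_right (DL_sum_v h hM a u t s)
            (mul_nonneg (sq_nonneg _) (hG0 s u))
      _ = (β * DL_rest T a u t s * ρ t u ^ 2) * G s u := by ring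
      _ ≤ (β * DL_rest T a u t s * ρ t u ^ 2) * (c' * (T ^ 6) s u) :=
          mul_le_mul_of_nonneg_left (hG s u) (by positivity)
      _ = _ := by ring
  calc ∑ v, ∑ a, ∑ u, ∑ t, ∑ s, M v a * ρ t u ^ 2 * DR_blk T v a u t s * G s u
      = ∑ u, ∑ t, ∑ a, ∑ s, ∑ v, M v a * ρ t u ^ 2 * DR_blk T v a u t s * G s u := by
        calc ∑ v, ∑ a, ∑ u, ∑ t, ∑ s, M v a * ρ t u ^ 2 * DR_blk T v a u t s * G s u
            = ∑ v, ∑ u, ∑ a, ∑ t, ∑ s, M v a * ρ t u ^ 2 * DR_blk T v a u t s * G s u :=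
              sum_congr rfl fun v _ => sum_comm
          _ = ∑ u, ∑ v, ∑ a, ∑ t, ∑ s, M v a * ρ t u ^ 2 * DR_blk T v a u t s * G s u := sum_comm
          _ = ∑ u, ∑ v, ∑ t, ∑ a, ∑ s, M v a * ρ t u ^ 2 * DR_blk T v a u t s * G s u :=
              sum_congr rfl fun u _ => sum_congr rfl fun v _ => sum_comm
          _ = ∑ u, ∑ t, ∑ v, ∑ a, ∑ s, M v a * ρ t u ^ 2 * DR_blk T v a u t s * G s u :=
              sum_congr rfl fun u _ => sum_comm
          _ = ∑ u, ∑ t, ∑ a, ∑ v, ∑ s, M v a * ρ t u ^ 2 * DR_blk T v a u t s * G s u :=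
              sum_congr rfl fun u _ => sum_congr rfl fun t _ => sum_comm
          _ = ∑ u, ∑ t, ∑ a, ∑ s, ∑ v, M v a * ρ t u ^ 2 * DR_blk T v a u t s * G s u :=
              sum_congr rfl fun u _ => sum_congr rfl fun t _ => sum_congr rfl fun a _ => sum_comm
    _ ≤ ∑ u, ∑ t, ∑ a, ∑ s, (β * c') * (ρ t u ^ 2 * (DL_rest T a u t s * (T ^ 6) s u)) :=
        sum_le_sum fun u _ => sum_le_sum fun t _ => sum_le_sum fun a _ => sum_le_sum fun s _ =>
          hv u t a s
    _ = (β * c') * ∑ u, ∑ t, ρ t u ^ 2 * ∑ a, ∑ s, DL_rest T a u t s * (T ^ 6) s u := by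
        simp only [mul_sum]
    _ ≤ (β * c') * ∑ u, ∑ t, 4 * B * (ρ t u ^ 2 * ((T ^ 8) t u) ^ 2) := by
        refine mul_le_mul_of_nonneg_left ?_ (by positivity)
        refine sum_le_sum fun u _ => sum_le_sum fun t _ => ?_
        calc ρ t u ^ 2 * ∑ a, ∑ s, DL_rest T a u t s * (T ^ 6) s u
            ≤ ρ t u ^ 2 * (4 * B * ((T ^ 8) t u) ^ 2) :=
              mul_le_mul_of_nonneg_left (W2_inner h u t) (sq_nonneg _)
          _ = _ := by ring
    _ = (β * c') * (4 * B * ∑ t, ∑ u, ρ t u ^ 2 * ((T ^ 8) t u) ^ 2) := by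
        rw [sum_comm]
        simp only [mul_sum]
    _ ≤ (β * c') * (4 * B * (Fintype.card V * W)) := by
        refine mul_le_mul_of_nonneg_left ?_ (by positivity)
        exact mul_le_mul_of_nonneg_left h.hW (by positivity)
    _ = Fintype.card V * (4 * β * c' * B * W) := by ring

end D

end Pool.Agent.helper66.LE
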