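import Pool.Agent.helper65.LE.TM

set_option autoImplicit false

open Finset Classical

namespace Pool.Agent.helper66.LE

theorem TA_mem_uv {d : ℕ} {R : Type*} [Ring R] (x : Fin d → R) :
    x ∈ uv d R ↔ ∃ i, x = Pi.single i 1 ∨ x = Pi.single i (-1) := by
  unfold uv
  rw [Finset.mem_image]
  constructor
  · rintro ⟨⟨i, b⟩, _, rfl⟩
    cases b
    · exact ⟨i, Or.inr (by simp)⟩
    · exact ⟨i, Or.inl (by simp)⟩
  · rintro ⟨i, h | h⟩
    · exact ⟨(i, true), Finset.mem_univ _, by simp [h]⟩
    · exact ⟨(i, false), Finset.mem_univ _, by simp [h]⟩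

theorem TA_neg_uv {d : ℕ} {R : Type*} [Ring R] (x : Fin d → R) (h : x ∈ uv d R) :
    -x ∈ uv d R := by
  rw [TA_mem_uv] at h ⊢
  obtain ⟨i, h | h⟩ := h
  · exact ⟨i, Or.inr (by rw [h, Pi.single_neg])⟩
  · exact ⟨i, Or.inl (by rw [h, ← Pi.single_neg, neg_neg])⟩

theorem TA_mem_cay {G : Type*} [AddCommGroup G] [Fintype G] (S : Finset G)
    (hS : ∀ s ∈ S, -s ∈ S) (u w : G) : s(u, w) ∈ cay S ↔ w - u ∈ S := by
  unfold cay
  rw [Finset.mem_image]
  constructor
  · rintro ⟨⟨a, b⟩, hab, h⟩
    rw [Finset.mem_product] at hab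
    rw [Sym2.eq_iff] at h
    rcases h with ⟨h1, h2⟩ | ⟨h1, h2⟩
    · simp only at h1 h2 hab
      have : w - u = b := by rw [← h1, ← h2]; abel
      rw [this]; exact hab.2
    · simp only at h1 h2 hab
      have : w - u = -b := by rw [← h1, ← h2]; abel
      rw [this]; exact hS _ hab.2
  · intro h
    exact ⟨(u, w - u), Finset.mem_product.2 ⟨Finset.mem_univ _, h⟩, by simp⟩

theorem TA_image {G : Type*} [AddCommGroup G] [Fintype G] (S : Finset G)
    (hS : ∀ s ∈ S, -s ∈ S) (φ : G ≃ G) (hφ : ∀ u w, φ w - φ u ∈ S ↔ w - u ∈ S) :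
    (cay S).image (Sym2.map φ) = cay S := by
  ext e
  induction e using Sym2.ind with
  | _ u w =>
    rw [Finset.mem_image]
    constructor
    · rintro ⟨e', he', h⟩
      rw [← h]
      clear h
      revert he'
      induction e' using Sym2.ind with
      | _ a b =>
        intro he'
        rw [Sym2.map_mk]
        rw [TA_mem_cay S hS] at he' ⊢
        exact (hφ _ _).2 he'
    · intro h
      refine ⟨s(φ.symm u, φ.symm w), ?_, by simp⟩
      rw [TA_mem_cay S hS] at h ⊢
      rw [← hφ]
      simpa using h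

section T

variable {d L : ℕ} [NeZero L] {q : ℝ}

/-- TA1 -/
theorem mem_cay_uv (u w : Tor d L) :
    s(u, w) ∈ cay (uv d (ZMod L)) ↔ w - u ∈ uv d (ZMod L) :=
  TA_mem_cay _ TA_neg_uv u w

/-- TA1 -/
theorem no_loop (hL : 2 ≤ L) (u : Tor d L) : s(u, u) ∉ cay (uv d (ZMod L)) := by
  rw [mem_cay_uv, sub_self, TA_mem_uv]
  have : Fact (1 < L) := ⟨hL⟩
  rintro ⟨i, h | h⟩
  · have := congrFun h i
    simp at this
  · have := congrFun h i
    simp at this

theorem TA_map (φ : Tor d L ≃ Tor d L)
    (hφ : ∀ u w, φ w - φ u ∈ uv d (ZMod L) ↔ w - u ∈ uv d (ZMod L)) (x y : Tor d L) :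
    t2 q (cay (uv d (ZMod L))) (φ x) (φ y) = t2 q (cay (uv d (ZMod L))) x y :=
  t2_map _ φ (TA_image _ TA_neg_uv φ hφ) x y

theorem TA_tt (x : Tor d L) : tt d L q x = t2 q (cay (uv d (ZMod L))) 0 x := rfl

/-- TA2 (from TM, TA1) -/
theorem t2_eq_tt (x y : Tor d L) : t2 q (cay (uv d (ZMod L))) x y = tt d L q (y - x) := by
  rw [TA_tt, ← TA_map (Equiv.subRight x) (fun u w => by simp) x y]
  simp

/-- TA2 (from TM, TA1) -/
theorem tt_sym : SymF (tt d L q) := by
  constructor
  · intro j x
    have hinv : Function.Involutive (flp (L := L) j) := by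
      intro y
      unfold flp
      simp
    have hsub : ∀ u w : Tor d L, flp j w - flp j u = flp j (w - u) := by
      intro u w
      unfold flp
      ext i
      by_cases hi : i = j
      · subst hi; simp; abel
      · simp [Function.update_of_ne hi]
    have huv : ∀ y : Tor d L, y ∈ uv d (ZMod L) → flp j y ∈ uv d (ZMod L) := by
      intro y hy
      rw [TA_mem_uv] at hy ⊢
      obtain ⟨i, hy⟩ := hy
      refine ⟨i, ?_⟩
      unfold flp
      by_cases hi : i = j
      · subst hi
        rcases hy with rfl | rfl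
        · right; ext k
          by_cases hk : k = i
          · subst hk; simp
          · simp [Function.update_of_ne hk, hk]
        · left; ext k
          by_cases hk : k = i
          · subst hk; simp
          · simp [Function.update_of_ne hk, hk]
      · rcases hy with rfl | rfl
        · left; ext k
          by_cases hk : k = j
          · subst hk; simp [Ne.symm hi]
          · simp [Function.update_of_ne hk]
        · right; ext k
          by_cases hk : k = j
          · subst hk; simp [Ne.symm hi]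
          · simp [Function.update_of_ne hk]
    have huv' : ∀ y : Tor d L, flp j y ∈ uv d (ZMod L) ↔ y ∈ uv d (ZMod L) := by
      intro y
      refine ⟨fun h => ?_, huv y⟩
      have := huv _ h
      rwa [hinv y] at this
    have h0 : flp j (0 : Tor d L) = 0 := by
      unfold flp; ext i; by_cases hi : i = j
      · subst hi; simp
      · simp [Function.update_of_ne hi]
    have key := TA_map (q := q) (hinv.toPerm (flp (L := L) j))
      (fun u w => by
        simp only [Function.Involutive.coe_toPerm]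
        rw [hsub, huv']) 0 x
    simp only [Function.Involutive.coe_toPerm] at key
    rw [h0] at key
    exact key
  · intro σ x
    let φ : Tor d L ≃ Tor d L :=
      ⟨fun x => x ∘ σ, fun x => x ∘ σ.symm, fun x => by ext i; simp, fun x => by ext i; simp⟩
    have hs : ∀ (τ : Equiv.Perm (Fin d)) (i : Fin d) (a : ZMod L),
        (Pi.single i a : Tor d L) ∘ τ = Pi.single (τ.symm i) a := by
      intro τ i a
      ext k
      by_cases hk : τ k = i
      · have : k = τ.symm i := by rw [← hk]; simp
        simp [this]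
      · have : k ≠ τ.symm i := by rintro rfl; simp at hk
        simp [hk, this]
    have huv : ∀ (τ : Equiv.Perm (Fin d)) (y : Tor d L), y ∈ uv d (ZMod L) →
        y ∘ τ ∈ uv d (ZMod L) := by
      intro τ y hy
      rw [TA_mem_uv] at hy ⊢
      obtain ⟨i, hy⟩ := hy
      rcases hy with rfl | rfl
      · exact ⟨τ.symm i, Or.inl (hs _ _ _)⟩
      · exact ⟨τ.symm i, Or.inr (hs _ _ _)⟩
    have huv' : ∀ y : Tor d L, y ∘ σ ∈ uv d (ZMod L) ↔ y ∈ uv d (ZMod L) := by
      intro y
      refine ⟨fun h => ?_, huv σ y⟩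
      have := huv σ.symm _ h
      have e : (y ∘ σ) ∘ σ.symm = y := by ext i; simp
      rwa [e] at this
    have key := TA_map (q := q) φ (fun u w => by
      change (w ∘ σ) - (u ∘ σ) ∈ _ ↔ _
      have : (w ∘ σ) - (u ∘ σ) = (w - u) ∘ σ := rfl
      rw [this, huv']) 0 x
    have h0 : φ (0 : Tor d L) = 0 := rfl
    rw [h0] at key
    exact key

/-- TA2 -/
theorem tt_neg (x : Tor d L) : tt d L q (-x) = tt d L q x := by
  have h := t2_eq_tt (q := q) x 0
  rw [zero_sub] at h
  rw [← h, t2_comm, TA_tt]

end T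

end Pool.Agent.helper66.LE
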