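import Pool.Agent.helper65.LE.TD

set_option autoImplicit false

open Finset Classical

namespace Pool.Agent.helper66.LE

section G

variable {G : Type} [AddCommGroup G] [Fintype G]

theorem FG_conv_eq (f g : G → ℝ) (x y : G) : (CM f * CM g) x y = conv f g (y - x) := by
  rw [Matrix.mul_apply]
  unfold conv
  rw [← Equiv.sum_comp (Equiv.addRight x)]
  refine sum_congr rfl fun w _ => ?_
  simp only [CM, Matrix.of_apply, Equiv.coe_addRight]
  congr 2
  · abel
  · abel

theorem FG_CM_conv (f g : G → ℝ) : CM (conv f g) = CM f * CM g := by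
  ext x y
  rw [FG_conv_eq]
  rfl

omit [Fintype G] in
theorem FG_CM_inj {f g : G → ℝ} (h : CM f = CM g) : f = g := by
  funext x
  have := congrFun (congrFun h 0) x
  simpa [CM] using this

/-- uniqueness of the solution -/
theorem FG_unique [DecidableEq G] (t j n n' : G → ℝ) (hn : ∀ x, t x = n x + conv (conv n j) t x)
    (hn' : ∀ x, t x = n' x + conv (conv n' j) t x) : n' = n := by
  have h1 : CM t = CM n + CM n * CM j * CM t := by
    rw [← FG_CM_conv, ← FG_CM_conv]
    ext x y
    exact hn (y - x)
  have h2 : CM t = CM n' + CM n' * CM j * CM t := by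
    rw [← FG_CM_conv, ← FG_CM_conv]
    ext x y
    exact hn' (y - x)
  apply FG_CM_inj
  have c1 : CM j * CM n = CM n * CM j := TD_comm _ _
  have c2 : CM t * CM j = CM j * CM t := TD_comm _ _
  have c3 : CM t * CM n = CM n * CM t := TD_comm _ _
  have c4 : CM j * CM t * CM j * CM n = CM j * (CM n * CM j * CM t) := by
    calc CM j * CM t * CM j * CM n = CM j * ((CM t * CM j) * CM n) := by
          simp only [mul_assoc]
      _ = CM j * (CM j * CM t * CM n) := by rw [c2]
      _ = CM j * (CM j * (CM n * CM t)) := by rw [mul_assoc (CM j) (CM t), c3]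
      _ = CM j * (CM j * CM n * CM t) := by rw [mul_assoc (CM j) (CM n)]
      _ = CM j * (CM n * CM j * CM t) := by rw [c1]
  have hinv : (1 + CM j * CM t) * (1 - CM j * CM n) = 1 := by
    calc (1 + CM j * CM t) * (1 - CM j * CM n)
        = 1 + CM j * CM t - CM j * CM n - CM j * CM t * CM j * CM n := by noncomm_ring
      _ = 1 + CM j * CM t - CM j * CM n - CM j * (CM n * CM j * CM t) := by rw [c4]
      _ = 1 + CM j * (CM t - CM n - CM n * CM j * CM t) := by noncomm_ring
      _ = 1 := by
          have : CM t - CM n - CM n * CM j * CM t = 0 := by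
            nth_rewrite 1 [h1]
            abel
          rw [this, mul_zero, add_zero]
  have h1' : CM n * (1 + CM j * CM t) = CM t := by
    rw [mul_add, mul_one, ← mul_assoc]; exact h1.symm
  have h2' : CM n' * (1 + CM j * CM t) = CM t := by
    rw [mul_add, mul_one, ← mul_assoc]; exact h2.symm
  calc CM n' = CM n' * ((1 + CM j * CM t) * (1 - CM j * CM n)) := by rw [hinv, mul_one]
    _ = CM t * (1 - CM j * CM n) := by rw [← mul_assoc, h2']
    _ = CM n * ((1 + CM j * CM t) * (1 - CM j * CM n)) := by rw [← mul_assoc, h1']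
    _ = CM n := by rw [hinv, mul_one]

theorem FG_conv_comp (φ : G ≃ G) (hφ : ∀ x y, φ (x - y) = φ x - φ y) (f g : G → ℝ) (x : G) :
    conv (fun y => f (φ y)) (fun y => g (φ y)) x = conv f g (φ x) := by
  unfold conv
  rw [← Equiv.sum_comp φ (fun y => f y * g (φ x - y))]
  simp only [hφ]

theorem FG_comp [DecidableEq G] (φ : G ≃ G) (hφ : ∀ x y, φ (x - y) = φ x - φ y) (t j n : G → ℝ)
    (ht : ∀ x, t (φ x) = t x) (hj : ∀ x, j (φ x) = j x)
    (hn : ∀ x, t x = n x + conv (conv n j) t x) (x : G) : n (φ x) = n x := by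
  have h := FG_unique t j n (fun x => n (φ x)) hn (fun x => by
    have h1 := hn (φ x)
    rw [ht] at h1
    rw [h1]
    congr 1
    rw [← FG_conv_comp φ hφ (conv n j) t x]
    congr 1
    · funext y
      rw [← FG_conv_comp φ hφ n j y]
      congr 1
      funext z
      exact hj z
    · funext y
      exact ht y)
  exact congrFun h x

end G

section F

variable {d L : ℕ} [NeZero L] {q : ℝ}

omit [NeZero L] in
theorem FG_flp_uv (j : Fin d) (y : Tor d L) : flp j y ∈ uv d (ZMod L) ↔ y ∈ uv d (ZMod L) := by
  have huv : ∀ y : Tor d L, y ∈ uv d (ZMod L) → flp j y ∈ uv d (ZMod L) := by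
    intro y hy
    rw [TA_mem_uv] at hy ⊢
    obtain ⟨i, hy⟩ := hy
    refine ⟨i, ?_⟩
    unfold flp
    by_cases hi : i = j
    · subst hi
      rcases hy with rfl | rfl
      · right; ext k
        by_cases hk : k = i
        · subst hk; simp
        · simp [Function.update_of_ne hk, hk]
      · left; ext k
        by_cases hk : k = i
        · subst hk; simp
        · simp [Function.update_of_ne hk, hk]
    · rcases hy with rfl | rfl
      · left; ext k
        by_cases hk : k = j
        · subst hk; simp [Ne.symm hi]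
        · simp [hk]
      · right; ext k
        by_cases hk : k = j
        · subst hk; simp [Ne.symm hi]
        · simp [hk]
  refine ⟨fun h => ?_, huv y⟩
  have := huv _ h
  have e : flp j (flp j y) = y := by unfold flp; simp
  rwa [e] at this

omit [NeZero L] in
theorem FG_perm_uv (σ : Equiv.Perm (Fin d)) (y : Tor d L) :
    y ∘ σ ∈ uv d (ZMod L) ↔ y ∈ uv d (ZMod L) := by
  have hs : ∀ (τ : Equiv.Perm (Fin d)) (i : Fin d) (a : ZMod L),
      (Pi.single i a : Tor d L) ∘ τ = Pi.single (τ.symm i) a := by
    intro τ i a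
    ext k
    by_cases hk : τ k = i
    · have : k = τ.symm i := by rw [← hk]; simp
      simp [this]
    · have : k ≠ τ.symm i := by rintro rfl; simp at hk
      simp [hk, this]
  have huv : ∀ (τ : Equiv.Perm (Fin d)) (y : Tor d L), y ∈ uv d (ZMod L) →
      y ∘ τ ∈ uv d (ZMod L) := by
    intro τ y hy
    rw [TA_mem_uv] at hy ⊢
    obtain ⟨i, hy⟩ := hy
    rcases hy with rfl | rfl
    · exact ⟨τ.symm i, Or.inl (hs _ _ _)⟩
    · exact ⟨τ.symm i, Or.inr (hs _ _ _)⟩
  refine ⟨fun h => ?_, huv σ y⟩
  have := huv σ.symm _ h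
  have e : (y ∘ σ) ∘ σ.symm = y := by ext i; simp
  rwa [e] at this

omit [NeZero L] in
theorem FG_qJ_congr {x y : Tor d L} (h : x ∈ uv d (ZMod L) ↔ y ∈ uv d (ZMod L)) :
    qJ d L q x = qJ d L q y := by
  unfold qJ J
  by_cases hx : x ∈ uv d (ZMod L)
  · rw [if_pos hx, if_pos (h.1 hx)]
  · rw [if_neg hx, if_neg (fun h' => hx (h.2 h'))]

/-- FG (from TA2): the sum of the expansion is symmetric -/
theorem N_sym (N : Tor d L → ℝ)
    (hN : ∀ x, tt d L q x = N x + conv (conv N (qJ d L q)) (tt d L q) x) : SymF N := by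
  constructor
  · intro j x
    have hinv : Function.Involutive (flp (L := L) j) := by
      intro y
      unfold flp
      simp
    refine FG_comp (hinv.toPerm (flp (L := L) j)) ?_ (tt d L q) (qJ d L q) N ?_ ?_ hN x
    · intro u w
      simp only [Function.Involutive.coe_toPerm]
      unfold flp
      ext i
      by_cases hi : i = j
      · subst hi; simp; abel
      · simp [Function.update_of_ne hi]
    · intro y
      exact tt_sym.1 j y
    · intro y
      exact FG_qJ_congr (FG_flp_uv j y)
  · intro σ x
    let φ : Tor d L ≃ Tor d L :=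
      ⟨fun x => x ∘ σ, fun x => x ∘ σ.symm, fun x => by ext i; simp, fun x => by ext i; simp⟩
    refine FG_comp φ ?_ (tt d L q) (qJ d L q) N ?_ ?_ hN x
    · intro u w
      rfl
    · intro y
      exact tt_sym.2 σ y
    · intro y
      exact FG_qJ_congr (FG_perm_uv σ y)

end F

end Pool.Agent.helper66.LE
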