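import Pool.Agent.helper65.LE.TD
import Pool.Agent.helper33.LE.FC
import Pool.Agent.helper33.LE.FA

set_option autoImplicit false

open Finset Classical

namespace Pool.Agent.helper66.LE

section F

variable {d L : ℕ} [NeZero L] {q : ℝ}

theorem FW_pow8 {a b : ℝ} (ha : 0 ≤ a) (hb : 0 ≤ b) (h : a ≤ b) :
    b ^ 8 - a ^ 8 ≤ 8 * (b - a) * b ^ 7 := by
  have h1 : b ^ 8 - a ^ 8 = (b - a) * (b ^ 7 + b ^ 6 * a + b ^ 5 * a ^ 2 + b ^ 4 * a ^ 3 +
    b ^ 3 * a ^ 4 + b ^ 2 * a ^ 5 + b * a ^ 6 + a ^ 7) := by ring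
  have h2 : ∀ i : ℕ, a ^ i ≤ b ^ i := fun i => pow_le_pow_left₀ ha h i
  have h3 : b ^ 6 * a ≤ b ^ 7 := by
    calc b ^ 6 * a ≤ b ^ 6 * b := mul_le_mul_of_nonneg_left h (by positivity)
      _ = b ^ 7 := by ring
  have h4 : b ^ 5 * a ^ 2 ≤ b ^ 7 := by
    calc b ^ 5 * a ^ 2 ≤ b ^ 5 * b ^ 2 := mul_le_mul_of_nonneg_left (h2 2) (by positivity)
      _ = b ^ 7 := by ring
  have h5 : b ^ 4 * a ^ 3 ≤ b ^ 7 := by
    calc b ^ 4 * a ^ 3 ≤ b ^ 4 * b ^ 3 := mul_le_mul_of_nonneg_left (h2 3) (by positivity)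
      _ = b ^ 7 := by ring
  have h6 : b ^ 3 * a ^ 4 ≤ b ^ 7 := by
    calc b ^ 3 * a ^ 4 ≤ b ^ 3 * b ^ 4 := mul_le_mul_of_nonneg_left (h2 4) (by positivity)
      _ = b ^ 7 := by ring
  have h7 : b ^ 2 * a ^ 5 ≤ b ^ 7 := by
    calc b ^ 2 * a ^ 5 ≤ b ^ 2 * b ^ 5 := mul_le_mul_of_nonneg_left (h2 5) (by positivity)
      _ = b ^ 7 := by ring
  have h8 : b * a ^ 6 ≤ b ^ 7 := by
    calc b * a ^ 6 ≤ b * b ^ 6 := mul_le_mul_of_nonneg_left (h2 6) hb
      _ = b ^ 7 := by ring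
  have h9 : a ^ 7 ≤ b ^ 7 := h2 7
  rw [h1]
  calc (b - a) * (b ^ 7 + b ^ 6 * a + b ^ 5 * a ^ 2 + b ^ 4 * a ^ 3 +
    b ^ 3 * a ^ 4 + b ^ 2 * a ^ 5 + b * a ^ 6 + a ^ 7) ≤ (b - a) * (8 * b ^ 7) := by
        refine mul_le_mul_of_nonneg_left ?_ (by linarith)
        linarith
    _ = 8 * (b - a) * b ^ 7 := by ring

theorem FW_pow8_abs {a b : ℝ} (ha : 0 ≤ a) (hb : 0 ≤ b) :
    |a ^ 8 - b ^ 8| ≤ 8 * |a - b| * (max a b) ^ 7 := by
  rcases le_total a b with h | h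
  · rw [max_eq_right h, abs_sub_comm, abs_sub_comm a b, abs_of_nonneg (sub_nonneg.2 h),
      abs_of_nonneg (sub_nonneg.2 (pow_le_pow_left₀ ha h 8))]
    exact FW_pow8 ha hb h
  · rw [max_eq_left h, abs_of_nonneg (sub_nonneg.2 h),
      abs_of_nonneg (sub_nonneg.2 (pow_le_pow_left₀ hb h 8))]
    exact FW_pow8 hb ha h

/-- the bound for one pair -/
theorem FW_pair {a b c : ℝ} (ha : 0 ≤ a) (hb : 0 ≤ b) (hc : 0 ≤ c)
    (h : |a - b| ≤ c * (a * (1 + b))) :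
    (a ^ 8 - b ^ 8) ^ 2 ≤ 64 * c ^ 2 * ((1 + a) ^ 18 + (1 + b) ^ 18) := by
  set m := max a b with hm
  have hm0 : 0 ≤ m := le_max_of_le_left ha
  have ham : a ≤ 1 + m := by linarith [le_max_left a b]
  have hbm : 1 + b ≤ 1 + m := by linarith [le_max_right a b]
  have h1 : |a ^ 8 - b ^ 8| ≤ 8 * c * (1 + m) ^ 9 := by
    calc |a ^ 8 - b ^ 8| ≤ 8 * |a - b| * m ^ 7 := FW_pow8_abs ha hb
      _ ≤ 8 * (c * (a * (1 + b))) * m ^ 7 := by
          refine mul_le_mul_of_nonneg_right ?_ (by positivity)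
          linarith
      _ ≤ 8 * (c * ((1 + m) * (1 + m))) * (1 + m) ^ 7 := by
          have h2 : a * (1 + b) ≤ (1 + m) * (1 + m) := mul_le_mul ham hbm (by linarith) (by linarith)
          have h3 : m ^ 7 ≤ (1 + m) ^ 7 := pow_le_pow_left₀ hm0 (by linarith) 7
          have h4 : 0 ≤ a * (1 + b) := mul_nonneg ha (by linarith)
          have h5 : 8 * (c * (a * (1 + b))) ≤ 8 * (c * ((1 + m) * (1 + m))) := by
            have := mul_le_mul_of_nonneg_left h2 hc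
            linarith
          exact mul_le_mul h5 h3 (by positivity) (by positivity)
      _ = 8 * c * (1 + m) ^ 9 := by ring
  have h2 : (a ^ 8 - b ^ 8) ^ 2 ≤ (8 * c * (1 + m) ^ 9) ^ 2 := by
    rw [← sq_abs]
    exact pow_le_pow_left₀ (abs_nonneg _) h1 2
  refine h2.trans ?_
  have h3 : (1 + m) ^ 18 ≤ (1 + a) ^ 18 + (1 + b) ^ 18 := by
    rcases le_total a b with h' | h'
    · rw [hm, max_eq_right h']
      have : 0 ≤ (1 + a) ^ 18 := by positivity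
      linarith
    · rw [hm, max_eq_left h']
      have : 0 ≤ (1 + b) ^ 18 := by positivity
      linarith
  calc (8 * c * (1 + m) ^ 9) ^ 2 = 64 * c ^ 2 * (1 + m) ^ 18 := by ring
    _ ≤ _ := mul_le_mul_of_nonneg_left h3 (by positivity)

/-- FW (from FC, FA) -/
theorem WW_le (hd : 1 ≤ d) (h0 : 0 ≤ q) (h1 : q ≤ 1) (hg : ∀ (k : Tor d L) (j : Fin d),
      |fh (tt d L q) k - fh (tt d L q) (k + Pi.single j 1)| ≤
        4 * Real.pi / (L * d) * (fh (tt d L q) k * (1 + fh (tt d L q) (k + Pi.single j 1)))) :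
    d * WW d L q ≤ 1280 * (1 / (L : ℝ) ^ d * ∑ k : Tor d L, (1 + fh (tt d L q) k) ^ 18) := by
  have hL : (0 : ℝ) < L := by exact_mod_cast Nat.pos_of_ne_zero (NeZero.ne L)
  have hdpos : (0 : ℝ) < d := by exact_mod_cast hd
  set S := ∑ k : Tor d L, (1 + fh (tt d L q) k) ^ 18 with hS
  have hS0 : 0 ≤ S := by
    refine sum_nonneg fun k _ => ?_
    have := fh_tt_nonneg h0 h1 k
    positivity
  have hpi : Real.pi ^ 2 ≤ 10 := by
    have h3 := Real.pi_lt_d2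
    have h4 := Real.pi_pos
    nlinarith
  have hj : ∀ j : Fin d, ∑ y, ab j y ^ 2 * ((CM (tt d L q) ^ 8) 0 y) ^ 2 ≤
      128 * Real.pi ^ 2 / d ^ 2 * (1 / (L : ℝ) ^ d * S) := by
    intro j
    refine (energy (tt d L q) (fun x => tt_neg x) j).trans ?_
    have h5 : ∑ k, (fh (tt d L q) k ^ 8 - fh (tt d L q) (k + Pi.single j 1) ^ 8) ^ 2 ≤
        64 * (4 * Real.pi / (L * d)) ^ 2 * (S + S) := by
      calc _ ≤ ∑ k, 64 * (4 * Real.pi / (L * d)) ^ 2 * ((1 + fh (tt d L q) k) ^ 18 +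
            (1 + fh (tt d L q) (k + Pi.single j 1)) ^ 18) := by
            refine sum_le_sum fun k _ => ?_
            exact FW_pair (fh_tt_nonneg h0 h1 k) (fh_tt_nonneg h0 h1 _)
              (by have := Real.pi_pos; positivity) (hg k j)
        _ = 64 * (4 * Real.pi / (L * d)) ^ 2 * (S + S) := by
            rw [← mul_sum, sum_add_distrib]
            congr 2
            exact Equiv.sum_comp (Equiv.addRight (Pi.single j 1 : Tor d L))
              (fun k => (1 + fh (tt d L q) k) ^ 18)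
    calc (L : ℝ) ^ 2 / 16 * (1 / (L : ℝ) ^ d *
      ∑ k, (fh (tt d L q) k ^ 8 - fh (tt d L q) (k + Pi.single j 1) ^ 8) ^ 2)
        ≤ (L : ℝ) ^ 2 / 16 * (1 / (L : ℝ) ^ d * (64 * (4 * Real.pi / (L * d)) ^ 2 * (S + S))) := by
          refine mul_le_mul_of_nonneg_left ?_ (by positivity)
          exact mul_le_mul_of_nonneg_left h5 (by positivity)
      _ = 128 * Real.pi ^ 2 / d ^ 2 * (1 / (L : ℝ) ^ d * S) := by
          field_simp
          ring
  have hW : WW d L q ≤ d * (128 * Real.pi ^ 2 / d ^ 2 * (1 / (L : ℝ) ^ d * S)) := by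
    unfold WW
    rw [sum_comm]
    refine (sum_le_sum fun j _ => hj j).trans (le_of_eq ?_)
    rw [sum_const, Finset.card_univ, Fintype.card_fin, nsmul_eq_mul]
  calc d * WW d L q ≤ d * (d * (128 * Real.pi ^ 2 / d ^ 2 * (1 / (L : ℝ) ^ d * S))) :=
        mul_le_mul_of_nonneg_left hW hdpos.le
    _ = 128 * Real.pi ^ 2 * (1 / (L : ℝ) ^ d * S) := by
        field_simp
    _ ≤ 1280 * (1 / (L : ℝ) ^ d * S) := by
        refine mul_le_mul_of_nonneg_right (by linarith) (by positivity)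

end F

end Pool.Agent.helper66.LE
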