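import Pool.Agent.helper65.LE.TB
import Pool.Agent.helper83.LE.PD
import Pool.Agent.helper20.LE.DS
import Pool.Agent.helper2.LE.SM
import Pool.Agent.helper2.LE.DA

set_option autoImplicit false

open Finset Classical

namespace Pool.Agent.helper66.LE

/-- weighted sum of an alternating series -/
theorem TC_alt {X : Type*} [Fintype X] (a : ℕ → X → ℝ) (w : X → ℝ) (b : ℕ → ℝ)
    (ha : ∀ n x, 0 ≤ a n x) (hw : ∀ x, 0 ≤ w x) (hs : ∀ x, Summable fun n => a n x)
    (hb : Summable b) (hab : ∀ n, ∑ x, w x * a n x ≤ b n) :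
    ∑ x, w x * |∑' n, (-1 : ℝ) ^ n * a n x| ≤ ∑' n, b n := by
  have h1 : ∀ x, |∑' n, (-1 : ℝ) ^ n * a n x| ≤ ∑' n, a n x := by
    intro x
    have h2 : ∀ n, ‖(-1 : ℝ) ^ n * a n x‖ = a n x := by
      intro n
      rw [norm_mul, norm_pow, norm_neg, norm_one, one_pow, one_mul, Real.norm_of_nonneg (ha n x)]
    have h3 : Summable fun n => ‖(-1 : ℝ) ^ n * a n x‖ := by
      simp only [h2]; exact hs x
    have h4 := norm_tsum_le_tsum_norm h3
    simp only [h2] at h4
    exact h4
  calc ∑ x, w x * |∑' n, (-1 : ℝ) ^ n * a n x| ≤ ∑ x, w x * ∑' n, a n x :=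
        sum_le_sum fun x _ => mul_le_mul_of_nonneg_left (h1 x) (hw x)
    _ = ∑ x, ∑' n, w x * a n x := by
        refine sum_congr rfl fun x _ => ?_
        rw [tsum_mul_left]
    _ = ∑' n, ∑ x, w x * a n x := by
        rw [Summable.tsum_finsetSum]
        exact fun x _ => (hs x).mul_left _
    _ ≤ ∑' n, b n := by
        refine Summable.tsum_le_tsum hab ?_ hb
        exact summable_sum fun x _ => (hs x).mul_left _

section T

variable {d L : ℕ} [NeZero L] {q : ℝ}

/-- TC (from TB, TD, PD, SM, DS, DS0, DA): the lace expansion on the torus -/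
theorem lace_torus (hL : 3 ≤ L) (h0 : 0 ≤ q) (h1 : q ≤ 1) {B δ : ℝ} (hB1 : 1 ≤ B) (hδ0 : 0 ≤ δ)
    (hB : ∀ x, (CM (tt d L q) ^ 8) 0 x ≤ B)
    (hδ : ∀ x, (CM (tt d L q) ^ 5 * CM (qJ d L q)) 0 x ≤ δ)
    (hκ : 4 * B * δ ≤ 1 / 8) (hW : WW d L q ≤ 1) :
    ∃ N : Tor d L → ℝ,
      (∀ x, tt d L q x = N x + conv (conv N (qJ d L q)) (tt d L q) x) ∧
      ∑ x, |N x - (if x = 0 then 1 else 0)| ≤ 12 * B ^ 3 * δ ∧
      mom N ≤ 2000 * B ^ 3 * (WW d L q + 4 * B * δ) := by
  have H := torus_hyp hL h0 h1 hB1 hδ0 hB hδ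
  set E : Finset (Sym2 (Tor d L)) := cay (uv d (ZMod L)) with hEdef
  have hT : Matrix.of (t2 q E) = CM (tt d L q) := by
    ext x y
    simp only [CM, Matrix.of_apply]
    exact t2_eq_tt x y
  have hQ : (Matrix.of fun u w => if s(u, w) ∈ E then q else 0) = CM (qJ d L q) := by
    ext u w
    simp only [CM, Matrix.of_apply, qJ, J]
    by_cases h : w - u ∈ uv d (ZMod L)
    · rw [if_pos ((mem_cay_uv u w).2 h), if_pos h, mul_one]
    · rw [if_neg (fun h' => h ((mem_cay_uv u w).1 h')), if_neg h, mul_zero]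
  -- the terms and their bounds
  set P : ℕ → Tor d L → ℝ := fun n x => Phi q E n {0} 0 x with hPdef
  have hP0 : ∀ n x, 0 ≤ P n x := fun n x => (Phi_le h0 h1 E n {0} 0 x).1
  have hPle : ∀ n x, P n x ≤ Dg (CM (tt d L q)) (CM (qJ d L q)) n 0 0 x := by
    intro n x
    have h := (Phi_le h0 h1 E n {0} 0 x).2
    rw [hT] at h
    refine h.trans (le_of_eq ?_)
    rw [Finset.sum_eq_single (0 : Tor d L)]
    · rw [if_pos (Set.mem_singleton _), ← hQ]
      congr!
    · intro b _ hb
      rw [if_neg (fun h => hb (Set.mem_singleton_iff.1 h))]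
    · intro h; exact absurd (Finset.mem_univ _) h
  set κ := 4 * B * δ with hκdef
  have hκ0 : 0 ≤ κ := by positivity
  have hκ1 : κ < 1 := by linarith
  have hsumP : ∀ n, ∑ x, P n x ≤ B ^ 2 * κ ^ n := by
    intro n
    calc ∑ x, P n x ≤ ∑ x, Dg (CM (tt d L q)) (CM (qJ d L q)) n 0 0 x :=
          sum_le_sum fun x _ => hPle n x
      _ ≤ B * κ ^ n * (CM (tt d L q) ^ 4) 0 0 := H.sum_Dg n 0 0
      _ ≤ B * κ ^ n * B := by
          refine mul_le_mul_of_nonneg_left ?_ (by positivity)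
          exact (H.pow_le (by norm_num : 4 ≤ 8) 0 0).2.1.trans (H.hB 0 0)
      _ = B ^ 2 * κ ^ n := by ring
  obtain ⟨-, hlace⟩ := lace_eq q h0 h1 E (fun u => no_loop (by omega) u) 0 (B ^ 2) κ hκ0 hκ1 hsumP
  have hgeo : Summable fun n : ℕ => κ ^ n := summable_geometric_of_lt_one hκ0 hκ1
  have hsx : ∀ x, Summable fun n => P n x := by
    intro x
    refine Summable.of_nonneg_of_le (fun n => hP0 n x) (fun n => ?_) (hgeo.mul_left (B ^ 2))
    exact (single_le_sum (f := fun x => P n x) (fun y _ => hP0 n y) (Finset.mem_univ x)).trans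
      (hsumP n)
  set N : Tor d L → ℝ := fun x => NN q E 0 x with hNdef
  have hN : ∀ x, N x = ∑' n, (-1 : ℝ) ^ n * P n x := fun x => rfl
  refine ⟨N, ?_, ?_, ?_⟩
  · intro x
    have h := hlace x
    rw [TA_tt, ← hEdef, h]
    congr 1
    unfold conv
    rw [Finset.sum_comm]
    refine sum_congr rfl fun w _ => ?_
    rw [sum_mul]
    refine sum_congr rfl fun u _ => ?_
    simp only [qJ, J]
    rw [hEdef, t2_eq_tt w x]
    by_cases h : w - u ∈ uv d (ZMod L)
    · rw [if_pos ((mem_cay_uv u w).2 h), if_pos h]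
      simp only [hNdef]
      ring
    · rw [if_neg (fun h' => h ((mem_cay_uv u w).1 h')), if_neg h]
      ring
  · -- total variation
    have hP00 : P 0 0 = 1 := by
      have hEpr : ∀ F : Finset (Sym2 (Tor d L)), Epr F ({0} : Set (Tor d L)) 0 0 := by
        intro F
        refine ⟨⟨Conn.rfl', fun h => h.1 (Set.mem_singleton _)⟩, fun u w h => ?_⟩
        exact absurd Conn.rfl' h.2.2.2
      have : P 0 0 = Pr q E (fun F => Epr F {0} 0 0) := by
        simp only [hPdef, Phi]
      rw [this]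
      exact Pr_true q E (A := fun F => Epr F {0} 0 0) fun F _ => hEpr F
    have hz : ∑ x, |P 0 x - (if x = 0 then 1 else 0)| ≤ δ * B := by
      have h3 := H.sum_Dg_zero 0
      refine le_trans (sum_le_sum fun x _ => ?_) h3
      by_cases hx : x = 0
      · rw [if_pos hx, if_pos hx, hx, hP00]; simp
      · rw [if_neg hx, if_neg hx, sub_zero, abs_of_nonneg (hP0 0 x)]
        exact hPle 0 x
    clear_value P
    have hrest : ∑ x, (1 : ℝ) * |∑' n, (-1 : ℝ) ^ n * P (n + 1) x| ≤
        ∑' n : ℕ, B ^ 2 * κ * κ ^ n := by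
      have hb : ∀ n, ∑ x, (1 : ℝ) * P (n + 1) x ≤ B ^ 2 * κ * κ ^ n := by
        intro n
        simp only [one_mul]
        refine (hsumP (n + 1)).trans (le_of_eq ?_)
        rw [pow_succ]; ring
      exact TC_alt (fun n x => P (n + 1) x) (fun _ => 1) (fun n => B ^ 2 * κ * κ ^ n)
        (fun n x => hP0 (n + 1) x)
        (fun _ => zero_le_one) (fun x => (summable_nat_add_iff 1).2 (hsx x)) (hgeo.mul_left _) hb
    have hsplit : ∀ x, N x - (if x = 0 then 1 else 0) =
        (P 0 x - (if x = 0 then 1 else 0)) - ∑' n, (-1 : ℝ) ^ n * P (n + 1) x := by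
      intro x
      have hs : Summable fun n => (-1 : ℝ) ^ n * P n x := by
        refine Summable.of_norm ?_
        refine (hsx x).congr fun n => ?_
        rw [norm_mul, norm_pow, norm_neg, norm_one, one_pow, one_mul,
          Real.norm_of_nonneg (hP0 n x)]
      rw [hN, hs.tsum_eq_zero_add, pow_zero, one_mul]
      have : (∑' n, (-1 : ℝ) ^ (n + 1) * P (n + 1) x) =
          - ∑' n, (-1 : ℝ) ^ n * P (n + 1) x := by
        rw [← tsum_neg]
        refine tsum_congr fun n => ?_
        rw [pow_succ]; ring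
      rw [this]; ring
    have hB0 : 0 ≤ B := by linarith
    calc ∑ x, |N x - (if x = 0 then 1 else 0)|
        ≤ ∑ x, (|P 0 x - (if x = 0 then 1 else 0)| + 1 * |∑' n, (-1 : ℝ) ^ n * P (n + 1) x|) := by
          refine sum_le_sum fun x _ => ?_
          rw [hsplit x, one_mul]
          exact abs_sub _ _
      _ = ∑ x, |P 0 x - (if x = 0 then 1 else 0)| +
          ∑ x, 1 * |∑' n, (-1 : ℝ) ^ n * P (n + 1) x| := sum_add_distrib
      _ ≤ δ * B + ∑' n, B ^ 2 * κ * κ ^ n := add_le_add hz hrest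
      _ = δ * B + B ^ 2 * κ * (1 - κ)⁻¹ := by
          rw [tsum_mul_left, tsum_geometric_of_lt_one hκ0 hκ1]
      _ ≤ 12 * B ^ 3 * δ := by
          have h7 : (1 - κ)⁻¹ ≤ 8 / 7 := by
            rw [inv_le_comm₀ (by linarith) (by norm_num)]
            linarith
          have h8 : B ^ 2 * κ * (1 - κ)⁻¹ ≤ B ^ 2 * κ * (8 / 7) :=
            mul_le_mul_of_nonneg_left h7 (by positivity)
          have h9 : δ * B ≤ δ * B ^ 3 := by
            refine mul_le_mul_of_nonneg_left ?_ hδ0
            calc B = B ^ 1 := (pow_one B).symm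
              _ ≤ B ^ 3 := pow_le_pow_right₀ hB1 (by norm_num)
          have h10 : 0 ≤ B ^ 3 * δ := by positivity
          rw [hκdef] at h8 ⊢
          nlinarith
  · -- second moment
    have hcard : (0 : ℝ) < Fintype.card (Tor d L) := by
      exact_mod_cast Fintype.card_pos
    have hw : ∀ n, ∑ x, (∑ j, ab j x ^ 2) * P n x ≤
        1000 * B ^ 3 * (WW d L q + κ) * (1 / 2) ^ n := by
      intro n
      have h3 := H.weight_Dg hκ hW n
      have h4 : ∀ v : Tor d L, ∑ x, √(∑ j, ab j (x - v) ^ 2) ^ 2 *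
          Dg (CM (tt d L q)) (CM (qJ d L q)) n v v x =
          ∑ x, (∑ j, ab j x ^ 2) * Dg (CM (tt d L q)) (CM (qJ d L q)) n 0 0 x := by
        intro v
        rw [← Equiv.sum_comp (Equiv.addLeft v)]
        refine sum_congr rfl fun x _ => ?_
        rw [Real.sq_sqrt (sum_nonneg fun j _ => sq_nonneg _)]
        simp only [Equiv.coe_addLeft]
        rw [Dg_translate]
        simp
      rw [sum_congr rfl fun v _ => h4 v, sum_const, nsmul_eq_mul, Finset.card_univ] at h3
      have h5 := le_of_mul_le_mul_left h3 hcard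
      refine le_trans (sum_le_sum (g := fun x => (∑ j, ab j x ^ 2) *
        Dg (CM (tt d L q)) (CM (qJ d L q)) n 0 0 x) fun x _ => ?_) h5
      exact mul_le_mul_of_nonneg_left (hPle n x) (sum_nonneg fun j _ => sq_nonneg _)
    have hhalf : Summable fun n : ℕ => (1 / 2 : ℝ) ^ n :=
      summable_geometric_of_lt_one (by norm_num) (by norm_num)
    calc mom N = ∑ x, (∑ j, ab j x ^ 2) * |∑' n, (-1 : ℝ) ^ n * P n x| := by
          unfold mom
          refine sum_congr rfl fun x _ => ?_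
          rw [← hN x, sum_mul]
      _ ≤ ∑' n : ℕ, 1000 * B ^ 3 * (WW d L q + κ) * (1 / 2) ^ n :=
          TC_alt P (fun x => ∑ j, ab j x ^ 2) _ hP0 (fun x => sum_nonneg fun j _ => sq_nonneg _) hsx
            (hhalf.mul_left _) hw
      _ = 2000 * B ^ 3 * (WW d L q + κ) := by
          rw [tsum_mul_left, tsum_geometric_of_lt_one (by norm_num) (by norm_num)]
          ring

end T

end Pool.Agent.helper66.LE
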