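import Pool.Agent.helper65.LE.TD
import Pool.Agent.helper83.LE.ST

set_option autoImplicit false

open Finset Classical

namespace Pool.Agent.helper66.LE

section T

variable {d L : ℕ} [NeZero L] {q : ℝ}

omit [NeZero L] in
theorem TB_ab_nonneg (j : Fin d) (x : Tor d L) : 0 ≤ ab j x := abs_nonneg _

omit [NeZero L] in
theorem TB_ab_neg (j : Fin d) (x : Tor d L) : ab j (-x) = ab j x := by
  unfold ab
  rw [Pi.neg_apply, ← Int.cast_abs, ← Int.cast_abs, Int.abs_eq_natAbs, Int.abs_eq_natAbs,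
    ZMod.natAbs_valMinAbs_neg]

omit [NeZero L] in
theorem TB_ab_add (j : Fin d) (x y : Tor d L) : ab j (x + y) ≤ ab j x + ab j y := by
  unfold ab
  rw [Pi.add_apply, ← Int.cast_abs, ← Int.cast_abs, ← Int.cast_abs, Int.abs_eq_natAbs,
    Int.abs_eq_natAbs, Int.abs_eq_natAbs]
  have h := ZMod.natAbs_valMinAbs_add_le (x j) (y j)
  have h2 := Int.natAbs_add_le (x j).valMinAbs (y j).valMinAbs
  have h3 : ((x j + y j).valMinAbs.natAbs) ≤ (x j).valMinAbs.natAbs + (y j).valMinAbs.natAbs :=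
    h.trans h2
  exact_mod_cast h3

omit [NeZero L] in
theorem TB_ab_zero (j : Fin d) : ab j (0 : Tor d L) = 0 := by
  unfold ab
  simp

theorem TB_mink (a b c : Fin d → ℝ) (hc : ∀ j, 0 ≤ c j)
    (h : ∀ j, c j ≤ a j + b j) :
    √(∑ j, c j ^ 2) ≤ √(∑ j, a j ^ 2) + √(∑ j, b j ^ 2) := by
  have h1 : √(∑ j, c j ^ 2) ≤ √(∑ j, (a j + b j) ^ 2) := by
    apply Real.sqrt_le_sqrt
    refine sum_le_sum fun j _ => ?_
    exact pow_le_pow_left₀ (hc j) (h j) 2
  refine h1.trans ?_
  have h2 := norm_add_le (WithLp.toLp 2 a : EuclideanSpace ℝ (Fin d)) (WithLp.toLp 2 b)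
  rw [EuclideanSpace.norm_eq, EuclideanSpace.norm_eq, EuclideanSpace.norm_eq] at h2
  simpa using h2

theorem TB_q_le (h0 : 0 ≤ q) (h1 : q ≤ 1) {V : Type} (E : Finset (Sym2 V)) (x y : V)
    (h : s(x, y) ∈ E) : q ≤ t2 q E x y := by
  have h2 : Pr q E (fun F => s(x, y) ∈ F) = q := by
    have h3 := Ex_open h q (fun _ => (1 : ℝ))
    rw [Ex_const, mul_one] at h3
    refine Eq.trans ?_ h3
    unfold Pr
    refine Ex_congr fun F _ => ?_
    by_cases hF : s(x, y) ∈ F
    · rw [if_pos hF, if_pos hF]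
    · rw [if_neg hF, if_neg hF]
  refine le_trans (le_of_eq h2.symm) ?_
  exact Pr_mono h0 h1 fun F _ hm => conn_of_mem hm

omit [NeZero L] in
theorem TB_ab_uv (hL : 3 ≤ L) (x : Tor d L) (hx : x ∈ uv d (ZMod L)) : ∑ j, ab j x ^ 2 ≤ 1 := by
  rw [TA_mem_uv] at hx
  have : Fact (1 < L) := ⟨by omega⟩
  have hone : ((1 : ZMod L).valMinAbs).natAbs = 1 := by
    have := ZMod.valMinAbs_natCast_of_le_half (n := L) (a := 1) (by omega)
    rw [Nat.cast_one] at this
    rw [this]
    simp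
  have habs : ∀ z : Tor d L, ∀ j, ab j z = (((z j).valMinAbs.natAbs : ℕ) : ℝ) := by
    intro z j
    unfold ab
    rw [← Int.cast_abs, Int.abs_eq_natAbs]
    simp
  obtain ⟨i, hx⟩ := hx
  have key : ∀ j, ab j x ^ 2 = if j = i then 1 else 0 := by
    intro j
    rw [habs]
    by_cases hj : j = i
    · subst hj
      rcases hx with rfl | rfl
      · simp [hone]
      · simp only [Pi.single_eq_same, if_true]
        rw [ZMod.natAbs_valMinAbs_neg, hone]
        simp
    · rcases hx with rfl | rfl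
      · simp [hj]
      · simp [hj]
  rw [sum_congr rfl fun j _ => key j]
  simp

/-- TB (from TA, ST): the hypotheses of the diagrammatic estimates on the torus -/
theorem torus_hyp (hL : 3 ≤ L) (h0 : 0 ≤ q) (h1 : q ≤ 1) {B δ : ℝ} (hB1 : 1 ≤ B) (hδ0 : 0 ≤ δ)
    (hB : ∀ x, (CM (tt d L q) ^ 8) 0 x ≤ B)
    (hδ : ∀ x, (CM (tt d L q) ^ 5 * CM (qJ d L q)) 0 x ≤ δ) :
    Hyp (CM (tt d L q)) (CM (qJ d L q)) (fun x y => √(∑ j, ab j (y - x) ^ 2)) B δ
      (WW d L q) where
  T0 x y := by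
    simp only [CM, Matrix.of_apply, ← t2_eq_tt]
    exact t2_nonneg h0 h1 _ _
  Ts x y := by
    simp only [CM, Matrix.of_apply, ← t2_eq_tt]
    exact t2_comm _ _
  T1 x := by
    simp only [CM, Matrix.of_apply, ← t2_eq_tt]
    exact t2_self _
  Tle x y := by
    simp only [CM, Matrix.of_apply, ← t2_eq_tt]
    exact t2_le_one h0 h1 _ _
  Q0 x y := by
    simp only [CM, Matrix.of_apply, qJ, J]
    split_ifs <;> simp [h0]
  Qs x y := by
    simp only [CM, Matrix.of_apply, qJ, J]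
    have : y - x ∈ uv d (ZMod L) ↔ x - y ∈ uv d (ZMod L) := by
      constructor
      · intro h; have := TA_neg_uv _ h; rwa [neg_sub] at this
      · intro h; have := TA_neg_uv _ h; rwa [neg_sub] at this
    by_cases h : y - x ∈ uv d (ZMod L)
    · rw [if_pos h, if_pos (this.1 h)]
    · rw [if_neg h, if_neg (fun h' => h (this.2 h'))]
  QT x y := by
    simp only [CM, Matrix.of_apply, ← t2_eq_tt, qJ, J]
    split_ifs with h
    · rw [mul_one]
      exact TB_q_le h0 h1 _ _ _ ((mem_cay_uv x y).2 h)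
    · rw [mul_zero]
      exact t2_nonneg h0 h1 _ _
  comm := TD_comm _ _
  step x y hxy := by
    rw [Matrix.mul_apply]
    simp only [CM, Matrix.of_apply, ← t2_eq_tt, qJ, J]
    refine (t2_step h0 h1 _ x y hxy).trans (le_of_eq ?_)
    refine sum_congr rfl fun w _ => ?_
    by_cases h : w - x ∈ uv d (ZMod L)
    · rw [if_pos ((mem_cay_uv x w).2 h), if_pos h, mul_one]
    · rw [if_neg (fun h' => h ((mem_cay_uv x w).1 h')), if_neg h, mul_zero, zero_mul]
  B1 := hB1
  hB x y := by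
    rw [(TD_inv_pow (TD_inv_CM (tt d L q)) 8).zero]
    exact hB _
  δ0 := hδ0
  hδ x y := by
    rw [(TD_inv_mul (TD_inv_pow (TD_inv_CM (tt d L q)) 5) (TD_inv_CM (qJ d L q))).zero]
    exact hδ _
  ρ0 x y := Real.sqrt_nonneg _
  ρs x y := by
    congr 1
    refine sum_congr rfl fun j _ => ?_
    rw [← neg_sub x y, TB_ab_neg]
  ρt x y z := by
    refine TB_mink _ _ _ (fun j => TB_ab_nonneg _ _) fun j => ?_
    have : z - x = (y - x) + (z - y) := by abel
    rw [this]
    exact TB_ab_add _ _ _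
  ρx x := by
    simp [TB_ab_zero]
  ρQ x y h := by
    have h2 : y - x ∈ uv d (ZMod L) := by
      by_contra hc
      apply h
      simp [CM, qJ, J, hc]
    have h3 := TB_ab_uv hL _ h2
    calc √(∑ j, ab j (y - x) ^ 2) ≤ √1 := Real.sqrt_le_sqrt h3
      _ = 1 := Real.sqrt_one
  W0 := by
    unfold WW
    exact sum_nonneg fun y _ => sum_nonneg fun j _ => mul_nonneg (sq_nonneg _) (sq_nonneg _)
  hW := by
    have h2 : ∀ x : Tor d L, ∑ y, √(∑ j, ab j (y - x) ^ 2) ^ 2 *
        ((CM (tt d L q) ^ 8) x y) ^ 2 = WW d L q := by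
      intro x
      unfold WW
      rw [← Equiv.sum_comp (Equiv.addRight x)]
      refine sum_congr rfl fun y _ => ?_
      rw [Real.sq_sqrt (sum_nonneg fun j _ => sq_nonneg _),
        (TD_inv_pow (TD_inv_CM (tt d L q)) 8).zero, sum_mul]
      simp
    rw [sum_congr rfl fun x _ => h2 x]
    simp

end T

end Pool.Agent.helper66.LE
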