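import Pool.Agent.helper65.LE.TA

set_option autoImplicit false

open Finset Classical

namespace Pool.Agent.helper66.LE

section G

variable {G : Type} [AddCommGroup G] [Fintype G]

theorem TD_KK (f : G → ℝ) (c v a u y : G) :
    KK (CM f) (v + c) (a + c) (u + c) (y + c) = KK (CM f) v a u y := by
  unfold KK
  rw [← Equiv.sum_comp (Equiv.addRight c)]
  refine sum_congr rfl fun t _ => ?_
  rw [← Equiv.sum_comp (Equiv.addRight c)]
  refine sum_congr rfl fun s _ => ?_
  simp only [CM, Matrix.of_apply, Equiv.coe_addRight, add_sub_add_right_eq_sub]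

theorem TD_gen (f g : G → ℝ) (n : ℕ) (c : G) : ∀ v a x,
    Dg (CM f) (CM g) n (v + c) (a + c) (x + c) = Dg (CM f) (CM g) n v a x := by
  induction n with
  | zero =>
    intro v a x
    simp only [Dg, EE]
    rw [← Equiv.sum_comp (Equiv.addRight c)]
    refine sum_congr rfl fun t _ => ?_
    simp only [CM, Matrix.of_apply, Equiv.coe_addRight, add_sub_add_right_eq_sub]
  | succ n ih =>
    intro v a x
    simp only [Dg]
    rw [← Equiv.sum_comp (Equiv.addRight c)]
    refine sum_congr rfl fun u _ => ?_
    rw [← Equiv.sum_comp (Equiv.addRight c)]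
    refine sum_congr rfl fun w _ => ?_
    rw [← Equiv.sum_comp (Equiv.addRight c)]
    refine sum_congr rfl fun y _ => ?_
    simp only [Equiv.coe_addRight]
    rw [TD_KK, ih]
    simp only [CM, Matrix.of_apply, add_sub_add_right_eq_sub]

/-- `A` is translation invariant -/
def TD_Inv (A : Matrix G G ℝ) : Prop := ∀ c x y, A (x + c) (y + c) = A x y

omit [Fintype G] in
theorem TD_inv_CM (f : G → ℝ) : TD_Inv (CM f) := by
  intro c x y
  simp [CM]

theorem TD_inv_mul [DecidableEq G] {A B : Matrix G G ℝ} (hA : TD_Inv A) (hB : TD_Inv B) :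
    TD_Inv (A * B) := by
  intro c x y
  rw [Matrix.mul_apply, Matrix.mul_apply, ← Equiv.sum_comp (Equiv.addRight c)]
  refine sum_congr rfl fun z _ => ?_
  simp only [Equiv.coe_addRight]
  rw [hA, hB]

omit [Fintype G] in
theorem TD_inv_one [DecidableEq G] : TD_Inv (1 : Matrix G G ℝ) := by
  intro c x y
  simp [Matrix.one_apply]

theorem TD_inv_pow [DecidableEq G] {A : Matrix G G ℝ} (hA : TD_Inv A) (m : ℕ) :
    TD_Inv (A ^ m) := by
  induction m with
  | zero => rw [pow_zero]; exact TD_inv_one
  | succ m ih => rw [pow_succ]; exact TD_inv_mul ih hA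

omit [Fintype G] in
theorem TD_Inv.zero {A : Matrix G G ℝ} (hA : TD_Inv A) (x y : G) : A x y = A 0 (y - x) := by
  have := hA x 0 (y - x)
  rw [zero_add, sub_add_cancel] at this
  exact this

theorem TD_comm (f g : G → ℝ) : CM f * CM g = CM g * CM f := by
  ext x y
  rw [Matrix.mul_apply, Matrix.mul_apply, ← Equiv.sum_comp (Equiv.subLeft (x + y))]
  refine sum_congr rfl fun z _ => ?_
  simp only [CM, Matrix.of_apply, Equiv.subLeft_apply]
  rw [mul_comm]
  congr 2
  · abel
  · abel

end G

section T

variable {d L : ℕ} [NeZero L] {q : ℝ}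

/-- TD (from TA): translation invariance of the diagrams -/
theorem Dg_translate (f g : Tor d L → ℝ) (n : ℕ) (v x : Tor d L) :
    Dg (CM f) (CM g) n v v (v + x) = Dg (CM f) (CM g) n 0 0 x := by
  have := TD_gen f g n v 0 0 x
  rw [zero_add, add_comm x v] at this
  exact this

end T

end Pool.Agent.helper66.LE
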