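import Pool.Agent.helper64.LE.Base

set_option autoImplicit false

open Finset Classical

namespace Pool.Agent.helper66.LE

section P

variable {V : Type}

/-- connections are invariant under bijections -/
theorem TM_conn (F : Finset (Sym2 V)) (φ : V ≃ V) (x y : V) :
    Conn (F.image (Sym2.map φ)) (φ x) (φ y) ↔ Conn F x y := by
  constructor
  · intro h
    have h2 := h.image φ.symm
    have h3 : (F.image (Sym2.map φ)).image (Sym2.map φ.symm) = F := by
      rw [Finset.image_image, ← Sym2.map_comp]
      simp
    rw [h3] at h2
    simpa using h2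
  · exact fun h => h.image φ

/-- TM: graph automorphisms -/
theorem t2_map {q : ℝ} (E : Finset (Sym2 V)) (φ : V ≃ V) (hE : E.image (Sym2.map φ) = E)
    (x y : V) : t2 q E (φ x) (φ y) = t2 q E x y := by
  unfold t2 Pr
  conv_lhs => rw [← hE]
  rw [Ex_image (Sym2.map φ) (Sym2.map.injective φ.injective).injOn]
  refine Ex_congr fun F hF => ?_
  simp only [TM_conn]

end P

end Pool.Agent.helper66.LE
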